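import Pool.Agent.Helper87.PD.Main

/-!
MP_dbf53e_co: all but a fraction `2 ^ (-n / 16)` of the ordered sets on `n` points are determined up to
isomorphism by any three cards, by their deck, and by their deck of `(n - k)`-element ordered subsets for every
`k ≤ n / 2048`; so for these ordered sets the order dimension is reconstructible.
-/

namespace Pool.Agent.Results.MP_dbf53e_co.AlmostAll

open Pool.Agent.Helper87.PD

/-- The definitions are in `Pool/Agent/Helper87/PD/Defs.lean`. -/
theorem result : ∀ n : ℕ, 4000000 ≤ n →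
    (Nat.card {r : Fin n → Fin n → Prop // IsPO r ∧ ¬ Determined r} : ℝ) ≤
        (2 : ℝ) ^ (-(n : ℝ) / 16) * Nat.card {r : Fin n → Fin n → Prop // IsPO r} ∧
    (classes (fun r : Fin n → Fin n → Prop => IsPO r ∧ ¬ Determined r) : ℝ) ≤
        (2 : ℝ) ^ (-(n : ℝ) / 16) * classes (fun r : Fin n → Fin n → Prop => IsPO r) ∧
    ∀ r s : Fin n → Fin n → Prop, IsPO r → Determined r → IsPO s →
      (SameDeck r s → Iso r s ∧ dim r = dim s) ∧
      (∀ x y : Fin 3 → Fin n, Function.Injective y → (∀ i, Iso (del r (x i)) (del s (y i))) →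
        Iso r s ∧ dim r = dim s) ∧
      ∀ k ≤ n / 2048, SameKDeck k r s → Iso r s ∧ dim r = dim s :=
  fun _ hn => main hn

end Pool.Agent.Results.MP_dbf53e_co.AlmostAll
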