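import Pool.Agent.Helper14.LD.Main

/-!
MP_dbf53e_co: for every `c` and all sufficiently large `n`, ordered sets of dimension at least `(n - c) / 2` with `n`
points are determined up to isomorphism by their decks.
-/

namespace Pool.Agent.Results.MP_dbf53e_co.LargeDimension

open Pool.Agent.Helper87.PD

/-- The definitions are in `Pool/Agent/Helper87/PD/Defs.lean`. -/
theorem result : ∀ c : ℕ, ∃ N : ℕ, ∀ n ≥ N, ∀ r s : Fin n → Fin n → Prop, IsPO r → IsPO s →
    n ≤ 2 * dim r + c → SameDeck r s → Iso r s ∧ dim r = dim s :=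
  Pool.Agent.Helper14.LD.main

end Pool.Agent.Results.MP_dbf53e_co.LargeDimension
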