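import Pool.Agent.Helper14.RO.Main

/-!
MP_dbf53e_co: for every `d ≥ 3`, all but a fraction `n ^ (-1/200)` of the `d`-tuples of permutations of `n` points
give an order of dimension exactly `d` which is determined up to isomorphism by any three cards, by its deck, and by
its deck of `(n - k)`-element ordered subsets for every `k ≤ n ^ (1/200)`.
-/

namespace Pool.Agent.Results.MP_dbf53e_co.RandomOrders

open Pool.Agent.Helper87.PD Pool.Agent.Helper14.RO

/-- The definitions are in `Pool/Agent/Helper87/PD/Defs.lean` and `Pool/Agent/Helper14/RO/Core.lean`. -/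
theorem result : ∀ d : ℕ, 3 ≤ d → ∃ N₀ : ℕ, ∀ n ≥ N₀,
    (Nat.card {σ : Fin d → Equiv.Perm (Fin n) //
          ¬ (Det ⌊(n : ℝ) ^ (1 / 200 : ℝ)⌋₊ (ord σ) ∧ dim (ord σ) = d)} : ℝ) ≤
        (n : ℝ) ^ (-(1 / 200) : ℝ) * Nat.card (Fin d → Equiv.Perm (Fin n)) ∧
    ∀ r s : Fin n → Fin n → Prop, Det ⌊(n : ℝ) ^ (1 / 200 : ℝ)⌋₊ r → IsPO s →
      (SameDeck r s → Iso r s ∧ dim r = dim s) ∧
      (∀ x y : Fin 3 → Fin n, Function.Injective y → (∀ i, Iso (del r (x i)) (del s (y i))) →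
        Iso r s ∧ dim r = dim s) ∧
      ∀ k ≤ ⌊(n : ℝ) ^ (1 / 200 : ℝ)⌋₊, SameKDeck k r s → Iso r s ∧ dim r = dim s :=
  main

end Pool.Agent.Results.MP_dbf53e_co.RandomOrders
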